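import Mathlib

set_option autoImplicit false

/-! Jordan paths in the image of an admissible path `Γ` belong to the maximal collection generated
by the subpaths of `Γ`. -/

namespace Pool.Agent.Results.MP_78c6b8_an.JordanPaths

open MeasureTheory Set Filter Topology
open scoped NNReal ENNReal

/-! ### A one-dimensional estimate -/

/-- Image of a set on which the function has zero derivative is null. -/
lemma sard (F : ℝ → ℝ) (T : Set ℝ) (h : ∀ v ∈ T, HasDerivWithinAt F 0 T v) :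
    volume (F '' T) = 0 := by
  refine addHaar_image_eq_zero_of_det_fderivWithin_eq_zero volume (f' := fun _ => 0) ?_ ?_
  · intro v hv
    have := (h v hv).hasFDerivWithinAt
    simpa using this
  · intro v _
    simp

/-- Lipschitz images of null sets are null. -/
lemma lip_null (F : ℝ → ℝ) (T : Set ℝ) (K : ℝ≥0) (h : LipschitzOnWith K F T)
    (hT : volume T = 0) : volume (F '' T) = 0 := by
  have h1 := h.hausdorffMeasure_image_le (d := 1) zero_le_one
  rw [hausdorffMeasure_real, hT, mul_zero] at h1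
  exact le_antisymm h1 zero_le

/-- The core estimate. `c : S → ℂ` is a `1`-Lipschitz parametrisation of a compact set `X`;
`F` is a real function on `X` whose increments are controlled. -/
lemma core (S : Set ℝ) (c : ℝ → ℂ) (hc : LipschitzOnWith 1 c S) (F : ℂ → ℝ)
    (hF : ContinuousOn F (c '' S)) (Y : Set ℂ) (hYX : Y ⊆ c '' S) (hY : IsClosed Y) (ω : ℝ)
    (hω : 0 ≤ ω) (K : ℝ≥0) (hK : LipschitzOnWith K (F ∘ c) S)
    (hinc : ∀ ε > 0, ∃ δ > 0, ∀ v ∈ S, c v ∈ Y → ∀ u ∈ S, |u - v| < δ →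
      |F (c u) - F (c v)| ≤ ω * ‖c u - c v‖ + ε * |u - v|) (ε : ℝ) (hε : 0 < ε) :
    volume (F '' Y) ≤ ENNReal.ofReal (ω + ε) * μH[1] Y := by
  classical
  set T : Set ℝ := {v ∈ S | c v ∈ Y} with hT
  have hTY : c '' T = Y := by
    ext y; constructor
    · rintro ⟨v, hv, rfl⟩; exact hv.2
    · intro hy
      obtain ⟨v, hv, rfl⟩ := hYX hy
      exact ⟨v, ⟨hv, hy⟩, rfl⟩
  -- the good sets
  let G : ℕ → Set ℝ := fun n => {v ∈ T | ∀ u ∈ S, |u - v| < 1 / ((n : ℝ) + 1) →
    |u - v| ≤ ((n : ℝ) + 1) * ‖c u - c v‖}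
  choose! δ hδ0 hδ using hinc
  let η : ℕ → ℝ := fun n => min (1 / ((n : ℝ) + 1)) (δ (ε / ((n : ℝ) + 1)))
  have hη0 : ∀ n, 0 < η n := fun n => lt_min (by positivity) (hδ0 _ (by positivity))
  let P : ℕ × ℤ → Set ℝ := fun p => G p.1 ∩ {v | ⌊v / η p.1⌋ = p.2}
  have hPsmall : ∀ p, ∀ u ∈ P p, ∀ v ∈ P p, |u - v| < η p.1 := by
    intro p u hu v hv
    have h1 := Int.abs_sub_lt_one_of_floor_eq_floor (hu.2.trans hv.2.symm)
    rw [← sub_div, abs_div, abs_of_pos (hη0 p.1), div_lt_one (hη0 p.1)] at h1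
    exact h1
  have hPT : ∀ p, P p ⊆ T := fun p v hv => hv.1.1
  -- Lipschitz bound on the pieces
  have hlip : ∀ p, LipschitzOnWith (Real.toNNReal (ω + ε)) F (c '' P p) := by
    intro p
    refine LipschitzOnWith.of_dist_le_mul ?_
    rintro _ ⟨u, hu, rfl⟩ _ ⟨v, hv, rfl⟩
    rw [Real.coe_toNNReal _ (by positivity), Real.dist_eq, dist_eq_norm]
    have h1 := hPsmall p u hu v hv
    have h2 : |u - v| < 1 / ((p.1 : ℝ) + 1) := h1.trans_le (min_le_left _ _)
    have h3 : |u - v| < δ (ε / ((p.1 : ℝ) + 1)) := h1.trans_le (min_le_right _ _)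
    have h4 := hδ (ε / ((p.1 : ℝ) + 1)) (by positivity) v hv.1.1.1 hv.1.1.2 u hu.1.1.1 h3
    have h5 := hv.1.2 u hu.1.1.1 h2
    have h6 : ε / ((p.1 : ℝ) + 1) * |u - v| ≤ ε * ‖c u - c v‖ := by
      calc ε / ((p.1 : ℝ) + 1) * |u - v|
          ≤ ε / ((p.1 : ℝ) + 1) * (((p.1 : ℝ) + 1) * ‖c u - c v‖) := by gcongr
        _ = ε * ‖c u - c v‖ := by field_simp
    linarith
  -- the closed pieces
  let Z : ℕ × ℤ → Set ℂ := fun p => closure (c '' P p)
  have hZY : ∀ p, Z p ⊆ Y := fun p =>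
    closure_minimal (by rintro _ ⟨v, hv, rfl⟩; exact (hPT p hv).2) hY
  have hZlip : ∀ p, LipschitzOnWith (Real.toNNReal (ω + ε)) F (Z p) := fun p =>
    (hlip p).closure (hF.mono ((hZY p).trans hYX))
  -- the bad set
  set B : Set ℝ := T \ ⋃ n, G n with hB
  have hBnull : volume ((F ∘ c) '' B) = 0 := by
    have hae := hc.ae_differentiableWithinAt_of_mem_real
    have hnull : volume {v | ¬ (v ∈ S → DifferentiableWithinAt ℝ c S v)} = 0 := hae
    have hBsub : B ⊆ {v ∈ B | DifferentiableWithinAt ℝ c S v} ∪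
        (B ∩ {v | ¬ (v ∈ S → DifferentiableWithinAt ℝ c S v)}) := by
      intro v hv
      by_cases h : DifferentiableWithinAt ℝ c S v
      · exact Or.inl ⟨hv, h⟩
      · exact Or.inr ⟨hv, fun h' => h (h' hv.1.1)⟩
    refine measure_mono_null (image_mono hBsub) ?_
    rw [image_union]
    refine measure_union_null ?_ ?_
    · -- zero derivative
      apply sard
      rintro v ⟨hv, hdiff⟩
      have hvS : v ∈ S := hv.1.1
      -- the derivative of `c` vanishes
      have hd := hdiff.hasDerivWithinAt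
      set c' := derivWithin c S v with hc'
      have hbad : ∀ n : ℕ, ∃ u ∈ S, |u - v| < 1 / ((n : ℝ) + 1) ∧
          ((n : ℝ) + 1) * ‖c u - c v‖ < |u - v| := by
        intro n
        by_contra hne
        push Not at hne
        exact hv.2 (mem_iUnion.2 ⟨n, ⟨hv.1, fun u hu hlt => hne u hu hlt⟩⟩)
      choose u huS hu1 hu2 using hbad
      have hune : ∀ n, u n ≠ v := by
        intro n h
        have := hu2 n
        rw [h, sub_self, sub_self, norm_zero, mul_zero, abs_zero] at this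
        exact lt_irrefl _ this
      have hulim : Tendsto u atTop (𝓝[S \ {v}] v) := by
        rw [tendsto_nhdsWithin_iff]
        refine ⟨?_, Eventually.of_forall fun n => ⟨huS n, hune n⟩⟩
        rw [tendsto_iff_dist_tendsto_zero]
        exact squeeze_zero (fun _ => dist_nonneg) (fun n => (hu1 n).le)
          tendsto_one_div_add_atTop_nhds_zero_nat
      have hc0 : c' = 0 := by
        have h1 := (hasDerivWithinAt_iff_tendsto_slope.1 hd).comp hulim
        have h2 : Tendsto (fun n => ‖slope c v (u n)‖) atTop (𝓝 ‖c'‖) := h1.norm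
        have h3 : Tendsto (fun n => ‖slope c v (u n)‖) atTop (𝓝 0) := by
          refine squeeze_zero (fun _ => norm_nonneg _) (fun n => ?_)
            tendsto_one_div_add_atTop_nhds_zero_nat
          rw [slope_def_module, norm_smul, norm_inv, Real.norm_eq_abs]
          have h4 : 0 < |u n - v| := abs_pos.2 (sub_ne_zero.2 (hune n))
          rw [inv_mul_le_iff₀ h4, one_div, ← div_eq_mul_inv, le_div_iff₀ (by positivity)]
          linarith [hu2 n]
        exact norm_eq_zero.1 (tendsto_nhds_unique h2 h3)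
      rw [hc0] at hd
      have hd' := hd.mono (show {v ∈ B | DifferentiableWithinAt ℝ c S v} ⊆ S from
        fun x hx => hx.1.1.1)
      rw [hasDerivWithinAt_iff_isLittleO] at hd' ⊢
      simp only [smul_zero, sub_zero] at hd' ⊢
      rw [Asymptotics.isLittleO_iff] at hd' ⊢
      intro κ hκ
      have hκ2 : 0 < κ / (2 * (ω + 1)) := by positivity
      have h1 := hd' hκ2
      have h2 : ∀ᶠ x in 𝓝[{v ∈ B | DifferentiableWithinAt ℝ c S v}] v, |x - v| < δ (κ / 2) := by
        have : ∀ᶠ x in 𝓝 v, |x - v| < δ (κ / 2) := by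
          have := Metric.ball_mem_nhds v (hδ0 (κ / 2) (by positivity))
          exact this
        exact this.filter_mono nhdsWithin_le_nhds
      filter_upwards [h1, h2, self_mem_nhdsWithin] with x hx1 hx2 hx3
      have h3 := hδ (κ / 2) (by positivity) v hvS hv.1.2 x hx3.1.1.1 hx2
      rw [Real.norm_eq_abs, Real.norm_eq_abs] at *
      calc |(F ∘ c) x - (F ∘ c) v| ≤ ω * ‖c x - c v‖ + κ / 2 * |x - v| := h3
        _ ≤ ω * (κ / (2 * (ω + 1)) * |x - v|) + κ / 2 * |x - v| := by gcongr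
        _ = (ω * (κ / (2 * (ω + 1)))) * |x - v| + κ / 2 * |x - v| := by ring
        _ ≤ κ / 2 * |x - v| + κ / 2 * |x - v| := by
            have h5 : ω * (κ / (2 * (ω + 1))) ≤ κ / 2 := by
              rw [← mul_div_assoc, div_le_div_iff₀ (by positivity) (by norm_num)]
              nlinarith
            exact add_le_add (mul_le_mul_of_nonneg_right h5 (abs_nonneg _)) le_rfl
        _ = κ * |x - v| := by ring
    · refine lip_null _ _ K (hK.mono fun x hx => hx.1.1.1) ?_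
      exact measure_mono_null inter_subset_right hnull
  -- covering
  have hcover : F '' Y ⊆ (⋃ p, F '' Z p) ∪ (F ∘ c) '' B := by
    rintro _ ⟨y, hy, rfl⟩
    rw [← hTY] at hy
    obtain ⟨v, hv, rfl⟩ := hy
    by_cases h : v ∈ ⋃ n, G n
    · obtain ⟨n, hn⟩ := mem_iUnion.1 h
      refine Or.inl (mem_iUnion.2 ⟨(n, ⌊v / η n⌋), ?_⟩)
      exact mem_image_of_mem _ (subset_closure ⟨v, ⟨hn, rfl⟩, rfl⟩)
    · exact Or.inr ⟨v, ⟨hv, h⟩, rfl⟩
  obtain ⟨e, he⟩ := exists_surjective_nat (ℕ × ℤ)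
  set A : ℕ → Set ℂ := disjointed fun k => Z (e k) with hA
  have hAsub : ∀ k, A k ⊆ Z (e k) := fun k => disjointed_subset _ k
  have hAmeas : ∀ k, MeasurableSet (A k) := fun k =>
    MeasurableSet.disjointed (fun k => isClosed_closure.measurableSet) k
  have hAU : ⋃ k, A k = ⋃ p, Z p := by
    rw [hA, iUnion_disjointed]
    exact he.iUnion_comp (g := Z)
  have hAdisj : Pairwise (Function.onFun Disjoint A) := disjoint_disjointed _
  calc volume (F '' Y) ≤ volume ((⋃ p, F '' Z p) ∪ (F ∘ c) '' B) := measure_mono hcover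
    _ ≤ volume (⋃ p, F '' Z p) + volume ((F ∘ c) '' B) := measure_union_le _ _
    _ = volume (⋃ k, F '' A k) := by
        rw [hBnull, add_zero, ← image_iUnion, ← image_iUnion, hAU]
    _ ≤ ∑' k, volume (F '' A k) := measure_iUnion_le _
    _ ≤ ∑' k, ENNReal.ofReal (ω + ε) * μH[1] (A k) := by
        refine ENNReal.tsum_le_tsum fun k => ?_
        have h1 := ((hZlip (e k)).mono (hAsub k)).hausdorffMeasure_image_le (d := 1) zero_le_one
        rw [hausdorffMeasure_real, ENNReal.rpow_one] at h1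
        exact h1
    _ = ENNReal.ofReal (ω + ε) * μH[1] (⋃ k, A k) := by
        rw [ENNReal.tsum_mul_left, measure_iUnion hAdisj hAmeas]
    _ ≤ ENNReal.ofReal (ω + ε) * μH[1] Y := by
        gcongr
        rw [hAU]
        exact iUnion_subset hZY

/-! ### Paths, contour integrals and the maximal collection -/

/-- `I` is the Riemann-Stieltjes contour integral `∫_{γ|[s,t]} g(z) dz`: the sums
`∑ g(γ(ξ i)) (γ(x (i+1)) - γ(x i))` over tagged partitions of `[s,t]` tend to `I` as the mesh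
tends to zero. -/
def IsContourInt (γ : ℝ → ℂ) (g : ℂ → ℂ) (s t : ℝ) (I : ℂ) : Prop :=
  ∀ ε > 0, ∃ δ > 0, ∀ (n : ℕ) (x ξ : ℕ → ℝ), Monotone x → x 0 = s → x n = t →
    (∀ i < n, x (i + 1) - x i < δ) → (∀ i < n, ξ i ∈ Icc (x i) (x (i + 1))) →
    ‖(∑ i ∈ Finset.range n, g (γ (ξ i)) * (γ (x (i + 1)) - γ (x i))) - I‖ < ε

/-- A path in the plane: a continuous map on `[a,b]`, `a < b` (values outside `[a,b]` are
irrelevant). -/
structure PlanePath where
  /-- left end of the parameter interval -/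
  a : ℝ
  /-- right end of the parameter interval -/
  b : ℝ
  /-- the map -/
  map : ℝ → ℂ
  lt : a < b
  cont : ContinuousOn map (Icc a b)

/-- The image of a path. -/
def PlanePath.image (γ : PlanePath) : Set ℂ := γ.map '' Icc γ.a γ.b

/-- A path is admissible: it is rectifiable and none of its subpaths is constant. -/
def PlanePath.Admissible (γ : PlanePath) : Prop :=
  BoundedVariationOn γ.map (Icc γ.a γ.b) ∧
  ∀ c d, γ.a ≤ c → c < d → d ≤ γ.b → ¬ ∃ z, ∀ x ∈ Icc c d, γ.map x = z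

/-- The subpaths of a path. -/
def PlanePath.subpaths (γ : PlanePath) : Set PlanePath :=
  {σ | γ.a ≤ σ.a ∧ σ.b ≤ γ.b ∧ EqOn σ.map γ.map (Icc σ.a σ.b)}

/-- `g` is an `𝓕`-derivative of `f` on `X`. -/
def IsDeriv (𝓕 : Set PlanePath) (X : Set ℂ) (f g : ℂ → ℂ) : Prop :=
  ContinuousOn f X ∧ ContinuousOn g X ∧
  ∀ γ ∈ 𝓕, IsContourInt γ.map g γ.a γ.b (f (γ.map γ.b) - f (γ.map γ.a))

/-- The maximal collection `⟨𝓕⟩` of paths in `X`. -/
def maxColl (𝓕 : Set PlanePath) (X : Set ℂ) : Set PlanePath :=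
  {γ | γ.Admissible ∧ γ.image ⊆ X ∧ ∀ f g, IsDeriv 𝓕 X f g → IsDeriv γ.subpaths X f g}

/-! ### From the contour integrals along `Γ` to increments -/

/-- The integral is close to `w` times the increment when `g` is close to `w`. -/
lemma int_bound (Γ : ℝ → ℂ) (g : ℂ → ℂ) (V : ℝ → ℝ) (a b p q : ℝ) (hap : a ≤ p) (hpq : p < q)
    (hqb : q ≤ b)
    (hV : ∀ x ∈ Icc a b, ∀ y ∈ Icc a b, x ≤ y → ‖Γ y - Γ x‖ ≤ V y - V x)
    (I w : ℂ) (κ : ℝ) (hκ : 0 ≤ κ) (hI : IsContourInt Γ g p q I)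
    (hg : ∀ r ∈ Icc p q, ‖g (Γ r) - w‖ ≤ κ) :
    ‖I - w * (Γ q - Γ p)‖ ≤ κ * (V q - V p) := by
  refine le_of_forall_pos_le_add fun ε hε => ?_
  obtain ⟨δ, hδ, h⟩ := hI ε hε
  obtain ⟨n, hn⟩ := exists_nat_gt ((q - p) / δ)
  have hn0 : 0 < n := by
    rcases Nat.eq_zero_or_pos n with h0 | h0
    · rw [h0, Nat.cast_zero] at hn
      exact absurd hn (not_lt.2 (div_nonneg (by linarith) hδ.le))
    · exact h0
  have hn0' : (0 : ℝ) < n := by exact_mod_cast hn0
  let x : ℕ → ℝ := fun i => p + (q - p) * ((min i n : ℕ) : ℝ) / n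
  have hxmono : Monotone x := by
    intro i j hij
    have : ((min i n : ℕ) : ℝ) ≤ ((min j n : ℕ) : ℝ) := by
      exact_mod_cast min_le_min_right n hij
    have hqp : 0 ≤ q - p := by linarith
    simp only [x]
    gcongr
  have hx0 : x 0 = p := by simp [x]
  have hxn : x n = q := by
    simp only [x, min_self]
    field_simp
    ring
  have hstep : ∀ i < n, x (i + 1) - x i < δ := by
    intro i hi
    have e1 : min (i + 1) n = i + 1 := min_eq_left hi
    have e2 : min i n = i := min_eq_left hi.le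
    simp only [x, e1, e2]
    push_cast
    rw [show p + (q - p) * ((i : ℝ) + 1) / n - (p + (q - p) * (i : ℝ) / n) = (q - p) / n by ring]
    rw [div_lt_iff₀ hn0']
    rw [div_lt_iff₀ hδ] at hn
    linarith
  have hxI : ∀ i ≤ n, x i ∈ Icc p q := fun i hi =>
    ⟨hx0 ▸ hxmono (Nat.zero_le i), hxn ▸ hxmono hi⟩
  have hsub : Icc p q ⊆ Icc a b := Icc_subset_Icc hap hqb
  have h1 := h n x x hxmono hx0 hxn hstep fun i _ => ⟨le_rfl, hxmono (Nat.le_succ i)⟩
  have h2 : Γ q - Γ p = ∑ i ∈ Finset.range n, (Γ (x (i + 1)) - Γ (x i)) := by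
    rw [Finset.sum_range_sub (fun i => Γ (x i)), hx0, hxn]
  have h3 : V q - V p = ∑ i ∈ Finset.range n, (V (x (i + 1)) - V (x i)) := by
    rw [Finset.sum_range_sub (fun i => V (x i)), hx0, hxn]
  have h4 : ‖(∑ i ∈ Finset.range n, g (Γ (x i)) * (Γ (x (i + 1)) - Γ (x i))) -
      w * (Γ q - Γ p)‖ ≤ κ * (V q - V p) := by
    rw [h2, h3, Finset.mul_sum, ← Finset.sum_sub_distrib, Finset.mul_sum]
    refine (norm_sum_le _ _).trans (Finset.sum_le_sum fun i hi => ?_)
    have hi' := Finset.mem_range.1 hi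
    rw [← sub_mul, norm_mul]
    exact mul_le_mul (hg _ (hxI i hi'.le)) (hV _ (hsub (hxI i hi'.le)) _
      (hsub (hxI (i + 1) hi')) (hxmono (Nat.le_succ i))) (norm_nonneg _) hκ
  calc ‖I - w * (Γ q - Γ p)‖ = ‖((∑ i ∈ Finset.range n, g (Γ (x i)) * (Γ (x (i + 1)) - Γ (x i))) -
      w * (Γ q - Γ p)) - ((∑ i ∈ Finset.range n, g (Γ (x i)) * (Γ (x (i + 1)) - Γ (x i))) - I)‖ := by
        congr 1; ring
    _ ≤ _ := norm_sub_le _ _
    _ ≤ κ * (V q - V p) + ε := add_le_add h4 h1.le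

/-- A `1`-Lipschitz parametrisation of the image of a rectifiable path. -/
lemma exists_param (Γ : ℝ → ℂ) (a b : ℝ) (hab : a < b) (hbv : BoundedVariationOn Γ (Icc a b)) :
    ∃ V : ℝ → ℝ, ∃ c : ℝ → ℂ,
      (∀ x ∈ Icc a b, ∀ y ∈ Icc a b, x ≤ y → ‖Γ y - Γ x‖ ≤ V y - V x) ∧
      (∀ x ∈ Icc a b, c (V x) = Γ x) ∧ LipschitzOnWith 1 c (V '' Icc a b) ∧
      ∃ L : ℝ, V '' Icc a b ⊆ Icc 0 L := by
  have ha : a ∈ Icc a b := ⟨le_rfl, hab.le⟩
  have hlbv : LocallyBoundedVariationOn Γ (Icc a b) := hbv.locallyBoundedVariationOn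
  have hV : ∀ x ∈ Icc a b, ∀ y ∈ Icc a b, x ≤ y → ‖Γ y - Γ x‖ ≤
      variationOnFromTo Γ (Icc a b) a y - variationOnFromTo Γ (Icc a b) a x := by
    intro x hx y hy hxy
    rw [variationOnFromTo.sub_right hlbv ha hy hx, variationOnFromTo.eq_of_le _ _ hxy,
      ← dist_eq_norm, dist_edist]
    refine ENNReal.toReal_mono (hlbv x y hx hy) (eVariationOn.edist_le _ ?_ ?_)
    · exact ⟨hy, hxy, le_rfl⟩
    · exact ⟨hx, le_rfl, hxy⟩
  have hcV : ∀ x ∈ Icc a b, naturalParameterization Γ (Icc a b) a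
      (variationOnFromTo Γ (Icc a b) a x) = Γ x := fun x hx =>
    edist_eq_zero.1 (edist_naturalParameterization_eq_zero hlbv ha hx)
  refine ⟨variationOnFromTo Γ (Icc a b) a, naturalParameterization Γ (Icc a b) a, hV, hcV, ?_, ?_⟩
  · refine LipschitzOnWith.of_dist_le_mul ?_
    rintro _ ⟨x, hx, rfl⟩ _ ⟨y, hy, rfl⟩
    rw [hcV x hx, hcV y hy, NNReal.coe_one, one_mul, dist_eq_norm, Real.dist_eq]
    rcases le_total x y with h | h
    · rw [norm_sub_rev, abs_sub_comm]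
      exact (hV x hx y hy h).trans (le_abs_self _)
    · exact (hV y hy x hx h).trans (le_abs_self _)
  · refine ⟨(eVariationOn Γ (Icc a b)).toReal, ?_⟩
    rintro _ ⟨x, hx, rfl⟩
    refine ⟨variationOnFromTo.nonneg_of_le _ _ hx.1, ?_⟩
    exact (le_abs_self _).trans (variationOnFromTo.abs_le_eVariationOn hbv)

/-- Increments of `Re (θ (f - w z))` along the parametrisation. -/
lemma increments (Γ : ℝ → ℂ) (a b : ℝ) (hΓ : ContinuousOn Γ (Icc a b))
    (V : ℝ → ℝ) (c : ℝ → ℂ)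
    (hV : ∀ x ∈ Icc a b, ∀ y ∈ Icc a b, x ≤ y → ‖Γ y - Γ x‖ ≤ V y - V x)
    (hcV : ∀ x ∈ Icc a b, c (V x) = Γ x) (f g : ℂ → ℂ)
    (hg : ContinuousOn g (Γ '' Icc a b))
    (hI : ∀ p q, a ≤ p → p < q → q ≤ b → IsContourInt Γ g p q (f (Γ q) - f (Γ p))) :
    (∃ M : ℝ, 0 ≤ M ∧ ∀ u ∈ V '' Icc a b, ∀ v ∈ V '' Icc a b,
      ‖f (c u) - f (c v)‖ ≤ M * |u - v|) ∧
    ∀ ε > 0, ∃ δ > 0, ∀ u ∈ V '' Icc a b, ∀ v ∈ V '' Icc a b, |u - v| < δ →
      ‖f (c u) - f (c v) - g (c v) * (c u - c v)‖ ≤ ε * |u - v| := by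
  have hX : IsCompact (Γ '' Icc a b) := isCompact_Icc.image_of_continuousOn hΓ
  constructor
  · obtain ⟨M, hM⟩ := hX.exists_bound_of_continuousOn hg
    have hM0 : 0 ≤ max M 0 := le_max_right _ _
    have key : ∀ p ∈ Icc a b, ∀ q ∈ Icc a b, p ≤ q →
        ‖f (Γ q) - f (Γ p)‖ ≤ max M 0 * (V q - V p) := by
      intro p hp q hq hpq
      rcases hpq.eq_or_lt with rfl | hlt
      · simp
      have := int_bound Γ g V a b p q hp.1 hlt hq.2 hV _ 0 (max M 0) hM0 (hI p q hp.1 hlt hq.2)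
        fun r hr => by
          rw [sub_zero]
          exact (hM _ (mem_image_of_mem _ ⟨hp.1.trans hr.1, hr.2.trans hq.2⟩)).trans (le_max_left _ _)
      simpa using this
    refine ⟨max M 0, hM0, ?_⟩
    rintro _ ⟨x, hx, rfl⟩ _ ⟨y, hy, rfl⟩
    rw [hcV x hx, hcV y hy]
    rcases le_total x y with h | h
    · rw [norm_sub_rev, abs_sub_comm]
      exact (key x hx y hy h).trans (mul_le_mul_of_nonneg_left (le_abs_self _) hM0)
    · exact (key y hy x hx h).trans (mul_le_mul_of_nonneg_left (le_abs_self _) hM0)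
  · intro ε hε
    have huc := hX.uniformContinuousOn_of_continuous hg
    rw [Metric.uniformContinuousOn_iff] at huc
    obtain ⟨δ, hδ, hδ'⟩ := huc ε hε
    refine ⟨δ, hδ, ?_⟩
    have key : ∀ p ∈ Icc a b, ∀ q ∈ Icc a b, p ≤ q → V q - V p < δ → ∀ r₀ ∈ Icc p q,
        ‖f (Γ q) - f (Γ p) - g (Γ r₀) * (Γ q - Γ p)‖ ≤ ε * (V q - V p) := by
      intro p hp q hq hpq hlt' r₀ hr₀
      rcases hpq.eq_or_lt with rfl | hlt
      · simp
      refine int_bound Γ g V a b p q hp.1 hlt hq.2 hV _ _ ε hε.le (hI p q hp.1 hlt hq.2)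
        fun r hr => ?_
      have hmem : ∀ r ∈ Icc p q, r ∈ Icc a b := fun r hr => ⟨hp.1.trans hr.1, hr.2.trans hq.2⟩
      have hVmono : ∀ r ∈ Icc a b, ∀ r' ∈ Icc a b, r ≤ r' → V r ≤ V r' := fun r hr r' hr' h => by
        have := hV r hr r' hr' h
        linarith [norm_nonneg (Γ r' - Γ r)]
      rw [← dist_eq_norm]
      refine (hδ' _ (mem_image_of_mem _ (hmem r hr)) _ (mem_image_of_mem _ (hmem r₀ hr₀)) ?_).le
      rw [dist_eq_norm]
      have e1 := hVmono p hp r (hmem r hr) hr.1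
      have e2 := hVmono p hp r₀ (hmem r₀ hr₀) hr₀.1
      have e3 := hVmono r (hmem r hr) q hq hr.2
      have e4 := hVmono r₀ (hmem r₀ hr₀) q hq hr₀.2
      rcases le_total r₀ r with h | h
      · have := hV r₀ (hmem r₀ hr₀) r (hmem r hr) h
        linarith
      · have := hV r (hmem r hr) r₀ (hmem r₀ hr₀) h
        rw [norm_sub_rev] at this
        linarith
    rintro _ ⟨x, hx, rfl⟩ _ ⟨y, hy, rfl⟩ hlt
    rw [hcV x hx, hcV y hy]
    rcases le_total x y with h | h
    · have h1 : V y - V x < δ := (le_abs_self _).trans_lt (by rwa [abs_sub_comm] at hlt)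
      have h2 := key x hx y hy h h1 y ⟨h, le_rfl⟩
      have h3 : f (Γ x) - f (Γ y) - g (Γ y) * (Γ x - Γ y) =
          -(f (Γ y) - f (Γ x) - g (Γ y) * (Γ y - Γ x)) := by ring
      rw [h3, norm_neg, abs_sub_comm]
      exact h2.trans (mul_le_mul_of_nonneg_left (le_abs_self _) hε.le)
    · have h1 : V x - V y < δ := (le_abs_self _).trans_lt hlt
      have h2 := key y hy x hx h h1 y ⟨le_rfl, h⟩
      exact h2.trans (mul_le_mul_of_nonneg_left (le_abs_self _) hε.le)

/-- A unit vector turning `D` into its modulus. -/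
lemma exists_turn (D : ℂ) : ∃ θ : ℂ, ‖θ‖ ≤ 1 ∧ (θ * D).re = ‖D‖ := by
  by_cases hD : D = 0
  · exact ⟨0, by simp, by simp [hD]⟩
  · have hn : (0 : ℝ) < ‖D‖ := norm_pos_iff.2 hD
    refine ⟨(starRingEnd ℂ) D / ‖D‖, ?_, ?_⟩
    · rw [norm_div, RCLike.norm_conj, Complex.norm_real, norm_norm, div_self hn.ne']
    · rw [div_mul_eq_mul_div, mul_comm, Complex.mul_conj, Complex.normSq_eq_norm_sq]
      rw [← Complex.ofReal_div, Complex.ofReal_re]
      field_simp

/-- A continuous real function on an arc with different end values has a large image. -/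
lemma image_large (h : ℝ → ℝ) (s t : ℝ) (hst : s ≤ t) (hh : ContinuousOn h (Icc s t)) :
    ENNReal.ofReal (h t - h s) ≤ volume (h '' Icc s t) := by
  rw [← Real.volume_Icc]
  exact measure_mono (intermediate_value_Icc hst hh)

/-- The chord is at most the length. -/
lemma chord_le (γ : ℝ → ℂ) (s t : ℝ) (hst : s ≤ t) (hγ : ContinuousOn γ (Icc s t)) :
    edist (γ t) (γ s) ≤ μH[1] (γ '' Icc s t) := by
  obtain ⟨θ, hθ, hθ2⟩ := exists_turn (γ t - γ s)
  let F : ℂ → ℝ := fun y => (θ * y).re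
  have hF : LipschitzOnWith 1 F (γ '' Icc s t) := by
    refine LipschitzOnWith.of_dist_le_mul fun y _ z _ => ?_
    rw [NNReal.coe_one, one_mul, Real.dist_eq, dist_eq_norm]
    have : F y - F z = (θ * (y - z)).re := by simp only [F]; rw [mul_sub, Complex.sub_re]
    rw [this]
    refine (Complex.abs_re_le_norm _).trans ?_
    rw [norm_mul]
    exact mul_le_of_le_one_left (norm_nonneg _) hθ
  have h1 := hF.hausdorffMeasure_image_le (d := 1) zero_le_one
  rw [hausdorffMeasure_real, ENNReal.rpow_one, ENNReal.coe_one, one_mul] at h1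
  refine le_trans ?_ h1
  have hFc : ContinuousOn (fun r => F (γ r)) (Icc s t) := by
    have : Continuous F := by fun_prop
    exact this.comp_continuousOn hγ
  have h2 := image_large (fun r => F (γ r)) s t hst hFc
  rw [edist_dist, dist_eq_norm, ← hθ2, image_image]
  have : (θ * (γ t - γ s)).re = F (γ t) - F (γ s) := by
    simp only [F]; rw [mul_sub, Complex.sub_re]
  rw [this]
  exact h2

/-- The increment of `f - w z` along an arc in `X` on which `g` is close to `w`. -/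
lemma arc_bound (Γ : ℝ → ℂ) (a b : ℝ) (V : ℝ → ℝ) (c : ℝ → ℂ)
    (hcV : ∀ x ∈ Icc a b, c (V x) = Γ x) (hcL : LipschitzOnWith 1 c (V '' Icc a b)) (f g : ℂ → ℂ)
    (hf : ContinuousOn f (Γ '' Icc a b))
    (hM : ∃ M : ℝ, 0 ≤ M ∧ ∀ u ∈ V '' Icc a b, ∀ v ∈ V '' Icc a b,
      ‖f (c u) - f (c v)‖ ≤ M * |u - v|)
    (hinc : ∀ ε > 0, ∃ δ > 0, ∀ u ∈ V '' Icc a b, ∀ v ∈ V '' Icc a b, |u - v| < δ →
      ‖f (c u) - f (c v) - g (c v) * (c u - c v)‖ ≤ ε * |u - v|)
    (γ : ℝ → ℂ) (s t : ℝ) (hst : s ≤ t) (hγ : ContinuousOn γ (Icc s t))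
    (hsub : γ '' Icc s t ⊆ Γ '' Icc a b) (w : ℂ) (ω ε : ℝ) (hω : 0 ≤ ω) (hε : 0 < ε)
    (hg : ∀ r ∈ Icc s t, ‖g (γ r) - w‖ ≤ ω) :
    ENNReal.ofReal ‖f (γ t) - f (γ s) - w * (γ t - γ s)‖ ≤
      ENNReal.ofReal (ω + ε) * μH[1] (γ '' Icc s t) := by
  obtain ⟨M, hM0, hM⟩ := hM
  have himg : c '' (V '' Icc a b) = Γ '' Icc a b := by
    ext y; constructor
    · rintro ⟨_, ⟨x, hx, rfl⟩, rfl⟩; exact ⟨x, hx, (hcV x hx).symm⟩
    · rintro ⟨x, hx, rfl⟩; exact ⟨V x, ⟨x, hx, rfl⟩, hcV x hx⟩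
  obtain ⟨θ, hθ, hθ2⟩ := exists_turn (f (γ t) - f (γ s) - w * (γ t - γ s))
  let F : ℂ → ℝ := fun y => (θ * (f y - w * y)).re
  have hFsub : ∀ y z, F y - F z = (θ * ((f y - f z) - w * (y - z))).re := by
    intro y z
    simp only [F]
    rw [← Complex.sub_re]
    congr 1
    ring
  have hFc : ContinuousOn F (c '' (V '' Icc a b)) := by
    rw [himg]
    fun_prop
  have hFabs : ∀ y z, |F y - F z| ≤ ‖(f y - f z) - w * (y - z)‖ := by
    intro y z
    rw [hFsub]
    refine (Complex.abs_re_le_norm _).trans ?_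
    rw [norm_mul]
    exact mul_le_of_le_one_left (norm_nonneg _) hθ
  have hcd : ∀ u ∈ V '' Icc a b, ∀ v ∈ V '' Icc a b, ‖c u - c v‖ ≤ |u - v| := by
    intro u hu v hv
    have := hcL.dist_le_mul u hu v hv
    rwa [NNReal.coe_one, one_mul, dist_eq_norm, Real.dist_eq] at this
  have hcore := core (V '' Icc a b) c hcL F hFc (γ '' Icc s t) (by rwa [himg])
    (isCompact_Icc.image_of_continuousOn hγ).isClosed ω hω (Real.toNNReal (M + ‖w‖))
    (by
      refine LipschitzOnWith.of_dist_le_mul fun u hu v hv => ?_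
      rw [Real.coe_toNNReal _ (by positivity), Real.dist_eq, Real.dist_eq]
      refine (hFabs _ _).trans ((norm_sub_le _ _).trans ?_)
      rw [norm_mul, add_mul]
      exact add_le_add (hM u hu v hv) (mul_le_mul_of_nonneg_left (hcd u hu v hv) (norm_nonneg _)))
    (by
      intro ε' hε'
      obtain ⟨δ, hδ, h⟩ := hinc ε' hε'
      refine ⟨δ, hδ, fun v hv hvY u hu hlt => ?_⟩
      have h1 := h u hu v hv hlt
      obtain ⟨r, hr, hr'⟩ := hvY
      have h2 : ‖g (c v) - w‖ ≤ ω := by rw [← hr']; exact hg r hr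
      refine (hFabs _ _).trans ?_
      calc ‖f (c u) - f (c v) - w * (c u - c v)‖
          = ‖(g (c v) - w) * (c u - c v) + (f (c u) - f (c v) - g (c v) * (c u - c v))‖ := by
            congr 1; ring
        _ ≤ ‖(g (c v) - w) * (c u - c v)‖ + ‖f (c u) - f (c v) - g (c v) * (c u - c v)‖ :=
            norm_add_le _ _
        _ ≤ ω * ‖c u - c v‖ + ε' * |u - v| := by
            rw [norm_mul]
            exact add_le_add (mul_le_mul_of_nonneg_right h2 (norm_nonneg _)) h1) ε hε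
  refine le_trans ?_ hcore
  have hFγ : ContinuousOn (fun r => F (γ r)) (Icc s t) :=
    (hFc.mono (by rwa [himg])).comp hγ (mapsTo_image _ _)
  have h2 := image_large (fun r => F (γ r)) s t hst hFγ
  rw [← hθ2, image_image, ← hFsub]
  exact h2

/-- Additivity of the length along a Jordan arc. -/
lemma sum_length (γ : ℝ → ℂ) (c d : ℝ) (hγ : ContinuousOn γ (Icc c d))
    (hinj : InjOn γ (Icc c d)) (n : ℕ) (x : ℕ → ℝ) (hx : Monotone x)
    (hxI : ∀ i ≤ n, x i ∈ Icc c d) :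
    ∑ i ∈ Finset.range n, μH[1] (γ '' Icc (x i) (x (i + 1))) ≤ μH[1] (γ '' Icc c d) := by
  have hsub : ∀ i < n, Icc (x i) (x (i + 1)) ⊆ Icc c d := fun i hi =>
    Icc_subset_Icc (hxI i hi.le).1 (hxI (i + 1) hi).2
  have hna : NullSingletonClass (μH[1] : Measure ℂ) :=
    Measure.nullSingletonClass_hausdorff ℂ one_pos
  -- half-open arcs
  have h1 : ∀ i < n, μH[1] (γ '' Icc (x i) (x (i + 1))) ≤
      μH[1] (γ '' Icc (x i) (x (i + 1)) \ {γ (x i)}) := by
    intro i hi
    have : γ '' Icc (x i) (x (i + 1)) ⊆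
        (γ '' Icc (x i) (x (i + 1)) \ {γ (x i)}) ∪ {γ (x i)} := by
      intro y hy
      by_cases h : y = γ (x i)
      · exact Or.inr h
      · exact Or.inl ⟨hy, h⟩
    calc μH[1] (γ '' Icc (x i) (x (i + 1))) ≤ _ := measure_mono this
      _ ≤ _ := measure_union_le _ _
      _ = _ := by rw [measure_singleton, add_zero]
  refine (Finset.sum_le_sum fun i hi => h1 i (Finset.mem_range.1 hi)).trans ?_
  rw [← measure_biUnion_finset]
  · refine measure_mono (iUnion₂_subset fun i hi => ?_)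
    exact sdiff_subset.trans (image_mono (hsub i (Finset.mem_range.1 hi)))
  · intro i hi j hj hij
    have hi' := Finset.mem_range.1 hi
    have hj' := Finset.mem_range.1 hj
    rw [Function.onFun, Set.disjoint_left]
    rintro _ ⟨⟨r, hr, rfl⟩, hr1⟩ ⟨⟨r', hr', he⟩, hr'1⟩
    have hrr : r' = r := hinj (hsub j hj' hr') (hsub i hi' hr) he
    subst hrr
    have e1 : r' ≠ x i := fun h => hr1 (by rw [h]; rfl)
    have e2 : r' ≠ x j := fun h => hr'1 (by rw [h]; rfl)
    rcases lt_or_gt_of_ne hij with h | h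
    · have := hx (show i + 1 ≤ j from h)
      exact e2 (le_antisymm (hr.2.trans this) hr'.1)
    · have := hx (show j + 1 ≤ i from h)
      exact e1 (le_antisymm (hr'.2.trans this) hr.1)
  · intro i hi
    refine MeasurableSet.diff ?_ (measurableSet_singleton _)
    exact (isCompact_Icc.image_of_continuousOn
      (hγ.mono (hsub i (Finset.mem_range.1 hi)))).isClosed.measurableSet

/-- **Every Jordan path in the image of an admissible path `Γ` belongs to the maximal collection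
generated by the subpaths of `Γ`.** -/
theorem result (Γ : PlanePath) (hΓ : Γ.Admissible) (γ : PlanePath)
    (hinj : InjOn γ.map (Icc γ.a γ.b)) (hsub : γ.image ⊆ Γ.image) :
    γ ∈ maxColl Γ.subpaths Γ.image := by
  obtain ⟨V, c, hV, hcV, hcL, L, hL⟩ := exists_param Γ.map Γ.a Γ.b Γ.lt hΓ.1
  -- finite length of the image
  have hfin : μH[1] Γ.image < ∞ := by
    have h1 := hcL.hausdorffMeasure_image_le (d := 1) zero_le_one
    rw [hausdorffMeasure_real, ENNReal.rpow_one, ENNReal.coe_one, one_mul] at h1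
    have himg : Γ.image ⊆ c '' (V '' Icc Γ.a Γ.b) := by
      rintro _ ⟨x, hx, rfl⟩
      exact ⟨V x, ⟨x, hx, rfl⟩, hcV x hx⟩
    calc μH[1] Γ.image ≤ _ := measure_mono himg
      _ ≤ _ := h1
      _ ≤ volume (Icc 0 L) := measure_mono hL
      _ < ∞ := by rw [Real.volume_Icc]; exact ENNReal.ofReal_lt_top
  have hfin' : μH[1] γ.image < ∞ := (measure_mono hsub).trans_lt hfin
  refine ⟨⟨?_, ?_⟩, hsub, ?_⟩
  · -- rectifiability
    have : eVariationOn γ.map (Icc γ.a γ.b) ≤ μH[1] γ.image := by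
      refine iSup_le ?_
      rintro ⟨n, x, hx, hxI⟩
      have h1 := sum_length γ.map γ.a γ.b γ.cont hinj n x hx fun i _ => hxI i
      refine le_trans (Finset.sum_le_sum fun i _ => ?_) h1
      exact chord_le γ.map (x i) (x (i + 1)) (hx (Nat.le_succ i))
        (γ.cont.mono (Icc_subset_Icc (hxI i).1 (hxI (i + 1)).2))
    exact ne_top_of_le_ne_top hfin'.ne this
  · rintro p q hp hpq hq ⟨z, hz⟩
    have h1 := hz p ⟨le_rfl, hpq.le⟩
    have h2 := hz q ⟨hpq.le, le_rfl⟩
    have := hinj ⟨hp, (hpq.le.trans hq)⟩ ⟨hp.trans hpq.le, hq⟩ (h1.trans h2.symm)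
    exact hpq.ne this
  · intro f g hfg
    obtain ⟨hf, hg, hI⟩ := hfg
    have hI' : ∀ p q, Γ.a ≤ p → p < q → q ≤ Γ.b →
        IsContourInt Γ.map g p q (f (Γ.map q) - f (Γ.map p)) := fun p q hp hpq hq =>
      hI ⟨p, q, Γ.map, hpq, Γ.cont.mono (Icc_subset_Icc hp hq)⟩ ⟨hp, hq, fun _ _ => rfl⟩
    obtain ⟨hM, hinc⟩ := increments Γ.map Γ.a Γ.b Γ.cont V c hV hcV f g hg hI'
    refine ⟨hf, hg, ?_⟩
    rintro σ ⟨hσa, hσb, hσ⟩
    have hσsub : Icc σ.a σ.b ⊆ Icc γ.a γ.b := Icc_subset_Icc hσa hσb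
    have hσX : σ.map '' Icc σ.a σ.b ⊆ Γ.image := by
      rintro _ ⟨x, hx, rfl⟩
      rw [hσ hx]
      exact hsub (mem_image_of_mem _ (hσsub hx))
    have hσinj : InjOn σ.map (Icc σ.a σ.b) := (hinj.mono hσsub).congr hσ.symm
    intro ε hε
    -- uniform continuity of `g ∘ σ`
    have hgσ : ContinuousOn (fun r => g (σ.map r)) (Icc σ.a σ.b) :=
      hg.comp σ.cont fun x hx => hσX (mem_image_of_mem _ hx)
    have huc := isCompact_Icc.uniformContinuousOn_of_continuous hgσ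
    rw [Metric.uniformContinuousOn_iff] at huc
    have hσfin : μH[1] (σ.map '' Icc σ.a σ.b) < ∞ := (measure_mono hσX).trans_lt hfin
    set H : ℝ := (μH[1] (σ.map '' Icc σ.a σ.b)).toReal with hH
    have hH0 : 0 ≤ H := ENNReal.toReal_nonneg
    set κ : ℝ := ε / (4 * (H + 1)) with hκ
    have hκ0 : 0 < κ := by positivity
    obtain ⟨δ, hδ, hδ'⟩ := huc κ hκ0
    refine ⟨δ, hδ, fun n x ξ hx hx0 hxn hmesh hξ => ?_⟩
    have hxI : ∀ i ≤ n, x i ∈ Icc σ.a σ.b := fun i hi =>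
      ⟨hx0 ▸ hx (Nat.zero_le i), hxn ▸ hx hi⟩
    have hstep : ∀ i < n, ENNReal.ofReal ‖f (σ.map (x (i + 1))) - f (σ.map (x i)) -
        g (σ.map (ξ i)) * (σ.map (x (i + 1)) - σ.map (x i))‖ ≤
        ENNReal.ofReal (κ + κ) * μH[1] (σ.map '' Icc (x i) (x (i + 1))) := by
      intro i hi
      have hsubI : Icc (x i) (x (i + 1)) ⊆ Icc σ.a σ.b :=
        Icc_subset_Icc (hxI i hi.le).1 (hxI (i + 1) hi).2
      refine arc_bound Γ.map Γ.a Γ.b V c hcV hcL f g hf hM hinc σ.map (x i) (x (i + 1))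
        (hx (Nat.le_succ i)) (σ.cont.mono hsubI) ((image_mono hsubI).trans hσX) _ κ κ hκ0.le hκ0
        fun r hr => ?_
      rw [← dist_eq_norm]
      refine (hδ' r (hsubI hr) (ξ i) (hsubI (hξ i hi)) ?_).le
      rw [Real.dist_eq, abs_lt]
      have h1 := hmesh i hi
      have h2 := hξ i hi
      constructor
      · linarith [hr.1, h2.2]
      · linarith [hr.2, h2.1]
    have htel : f (σ.map σ.b) - f (σ.map σ.a) =
        ∑ i ∈ Finset.range n, (f (σ.map (x (i + 1))) - f (σ.map (x i))) := by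
      rw [Finset.sum_range_sub (fun i => f (σ.map (x i))), hx0, hxn]
    rw [norm_sub_rev, htel, ← Finset.sum_sub_distrib]
    have hsum : ENNReal.ofReal (∑ i ∈ Finset.range n, ‖f (σ.map (x (i + 1))) - f (σ.map (x i)) -
        g (σ.map (ξ i)) * (σ.map (x (i + 1)) - σ.map (x i))‖) ≤
        ENNReal.ofReal (κ + κ) * ENNReal.ofReal H := by
      rw [ENNReal.ofReal_sum_of_nonneg fun _ _ => norm_nonneg _, hH,
        ENNReal.ofReal_toReal hσfin.ne]
      refine (Finset.sum_le_sum fun i hi => hstep i (Finset.mem_range.1 hi)).trans ?_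
      rw [← Finset.mul_sum]
      gcongr
      exact sum_length σ.map σ.a σ.b σ.cont hσinj n x hx hxI
    rw [← ENNReal.ofReal_mul (by positivity), ENNReal.ofReal_le_ofReal_iff (by positivity)] at hsum
    refine (norm_sum_le _ _).trans_lt (hsum.trans_lt ?_)
    rw [hκ]
    rw [show ε / (4 * (H + 1)) + ε / (4 * (H + 1)) = ε / (2 * (H + 1)) by field_simp; ring]
    rw [div_mul_eq_mul_div, div_lt_iff₀ (by positivity)]
    nlinarith

end Pool.Agent.Results.MP_78c6b8_an.JordanPaths
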